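import Pool.Agent.PQP.StmtsE
import Pool.Agent.Helper54_FLX.All

/-!
# Squad PQP, row FAE: the far part
-/

set_option autoImplicit false

open scoped InnerProductSpace Topology ContDiff Manifold
open MeasureTheory Filter Set

noncomputable section

namespace Pool.Agent.PQP.H74

open Pool.Agent.Helper42_Paneitz Pool.Agent.Helper82_Vir Pool.Agent.FLX

theorem continuous_mob {b : E5} (hb : ‖b‖ < 1) : Continuous (mob b) := by
  have h1 : ContinuousOn (fun z : E5 × S4 => mob z.1 z.2) {z | ‖z.1‖ < 1} := H54.mos_all.1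
  have h2 : Continuous fun x : S4 => ((b, x) : E5 × S4) := by fun_prop
  have h3 : Continuous ((fun z : E5 × S4 => mob z.1 z.2) ∘ fun x : S4 => ((b, x) : E5 × S4)) :=
    h1.comp_continuous h2 fun _ => hb
  exact h3

theorem measurable_far (p : S4) (ρ : ℝ) : MeasurableSet {z : S4 | ρ ≤ ‖(z : E5) - (p : E5)‖} := by
  apply IsClosed.measurableSet
  exact isClosed_le continuous_const (by fun_prop)

theorem measurable_far' {b : E5} (hb : ‖b‖ < 1) (p : S4) (ρ : ℝ) :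
    MeasurableSet {y : S4 | ρ ≤ ‖(mob b y : E5) - (p : E5)‖} :=
  (continuous_mob hb).measurable (measurable_far p ρ)

theorem norm_sub_sq_S4 (z w : S4) :
    ‖(z : E5) - (w : E5)‖ ^ 2 = 2 * (1 - ⟪(w : E5), (z : E5)⟫_ℝ) := by
  have h := norm_sub_sq_real (z : E5) (w : E5)
  have h1 : ‖(z : E5)‖ = 1 := S4_norm z
  have h2 : ‖(w : E5)‖ = 1 := S4_norm w
  have h3 : ⟪(z : E5), (w : E5)⟫_ℝ = ⟪(w : E5), (z : E5)⟫_ℝ := real_inner_comm _ _
  rw [h, h1, h2, h3]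
  ring

/-- change of variables for the far part -/
theorem far_change {b : E5} (hb : ‖b‖ < 1) (p : S4) (ρ : ℝ) (q : S4 → ℝ) :
    ∫ y in {y : S4 | ρ ≤ ‖(mob b y : E5) - (p : E5)‖}, q (mob b y) ∂sig =
      (1 - ‖b‖ ^ 2) ^ 2 *
        ∫ z in {z : S4 | ρ ≤ ‖(z : E5) - (p : E5)‖}, q z / (1 - ⟪b, (z : E5)⟫_ℝ) ^ 4 ∂sig := by
  have hb' : ‖-b‖ < 1 := by rwa [norm_neg]
  have hm := H54.mom_all (-b) hb'
    (fun y => ({y : S4 | ρ ≤ ‖(mob b y : E5) - (p : E5)‖}).indicator (fun y => q (mob b y)) y)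
  have hinv : ∀ z : S4, mob b (mob (-b) z) = z := by
    intro z
    have := (H54.moa_all (-b) hb').2.2.2.1 z
    rwa [neg_neg] at this
  rw [← integral_indicator (measurable_far' hb p ρ), ← hm,
    ← integral_indicator (measurable_far p ρ), ← integral_const_mul]
  apply integral_congr_ae
  apply Eventually.of_forall
  intro z
  simp only [Set.indicator_apply, Set.mem_ofPred_eq, hinv]
  split_ifs with h
  · unfold Jac
    rw [norm_neg, inner_neg_left]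
    ring
  · ring

theorem pow_four_diff {a b m : ℝ} (hm : 0 < m) (ha : m ≤ a) (hb : m ≤ b) (ha2 : a ≤ 2) (hb2 : b ≤ 2) :
    |1 / a ^ 4 - 1 / b ^ 4| ≤ 32 / m ^ 8 * |a - b| := by
  have ha0 : 0 < a := hm.trans_le ha
  have hb0 : 0 < b := hm.trans_le hb
  have e : 1 / a ^ 4 - 1 / b ^ 4 = (b - a) * (a ^ 3 + a ^ 2 * b + a * b ^ 2 + b ^ 3) /
      (a ^ 4 * b ^ 4) := by
    field_simp
    ring
  have h1 : 0 ≤ a ^ 3 + a ^ 2 * b + a * b ^ 2 + b ^ 3 := by positivity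
  have h2 : a ^ 3 + a ^ 2 * b + a * b ^ 2 + b ^ 3 ≤ 32 := by
    have h3 : a ^ 3 ≤ 2 ^ 3 := by gcongr
    have h4 : a ^ 2 * b ≤ 2 ^ 2 * 2 := by gcongr
    have h5 : a * b ^ 2 ≤ 2 * 2 ^ 2 := by gcongr
    have h6 : b ^ 3 ≤ 2 ^ 3 := by gcongr
    linarith
  have h7 : m ^ 8 ≤ a ^ 4 * b ^ 4 := by
    have e2 : m ^ 8 = m ^ 4 * m ^ 4 := by ring
    rw [e2]
    gcongr
  rw [e, abs_div, abs_mul, abs_of_nonneg h1, abs_of_pos (show 0 < a ^ 4 * b ^ 4 by positivity),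
    abs_sub_comm b a]
  have h8 : |a - b| * (a ^ 3 + a ^ 2 * b + a * b ^ 2 + b ^ 3) / (a ^ 4 * b ^ 4) ≤
      |a - b| * 32 / m ^ 8 := by
    gcongr
  calc _ ≤ |a - b| * 32 / m ^ 8 := h8
    _ = 32 / m ^ 8 * |a - b| := by ring

theorem fae (hfav : FavStmt) : FaeStmt := by
  intro p ρ hρ hρ1
  obtain ⟨C₁, hC₁, hF⟩ := hfav (ρ / 2) (by positivity)
  have hms := msig_pos
  set m : ℝ := ρ ^ 2 / 8 with hmdef
  have hm : 0 < m := by positivity
  refine ⟨C₁ * C₁ + 32 / m ^ 8 * msig + √(2 * C₁) * C₁ + C₁, by positivity, ?_⟩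
  intro q M hq hM hqM w l hwp hl hl1
  have hl0 : 0 ≤ l := by linarith
  have hnb : ‖l • (w : E5)‖ = l := by
    rw [norm_smul, S4_norm, mul_one, Real.norm_eq_abs, abs_of_nonneg hl0]
  have hb : ‖l • (w : E5)‖ < 1 := by rw [hnb]; exact hl1
  obtain ⟨hs, -, hvol⟩ := hF w w l hl hl1
  set b : E5 := l • (w : E5) with hbdef
  set τ : ℝ := 1 - l ^ 2 with hτdef
  have hτ : 0 < τ := by nlinarith
  set F : Set S4 := {y : S4 | ρ ≤ ‖(mob b y : E5) - (p : E5)‖} with hFdef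
  have hsub : F ⊆ {y : S4 | ρ / 2 ≤ ‖(mob b y : E5) - (w : E5)‖} := by
    intro y hy
    have h1 : ρ ≤ ‖(mob b y : E5) - (p : E5)‖ := hy
    have h2 : ‖(mob b y : E5) - (p : E5)‖ ≤ ‖(mob b y : E5) - (w : E5)‖ + ‖(w : E5) - (p : E5)‖ :=
      norm_sub_le_norm_sub_add_norm_sub _ _ _
    show ρ / 2 ≤ ‖(mob b y : E5) - (w : E5)‖
    linarith
  have hFm : MeasurableSet F := measurable_far' hb p ρ
  have hvF : sig.real F ≤ C₁ * τ ^ 2 := (measureReal_mono hsub).trans hvol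
  have hfin : sig F < ⊤ := measure_lt_top _ _
  have hsF : ∀ y ∈ F, 1 + ⟪(w : E5), (y : E5)⟫_ℝ ≤ C₁ * τ := fun y hy => hs y (hsub hy)
  have hsle : ∀ y : S4, |⟪(w : E5), (y : E5)⟫_ℝ| ≤ 1 := by
    intro y
    have := abs_inner_le (w : E5) y
    rwa [S4_norm] at this
  have hqF : ∀ y ∈ F, |q (mob b y)| ≤ M := fun y hy => hqM _ hy
  have cmob := continuous_mob hb
  have cq : Continuous fun y : S4 => q (mob b y) := hq.comp cmob
  have cw : Continuous fun y : S4 => ⟪(w : E5), (y : E5)⟫_ℝ := by fun_prop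
  have hbound : ∀ (f : S4 → ℝ) (B : ℝ), 0 ≤ B → (∀ y ∈ F, |f y| ≤ B) →
      |∫ y in F, f y ∂sig| ≤ B * (C₁ * τ ^ 2) := by
    intro f B hB h
    have h1 := norm_setIntegral_le_of_norm_le_const (μ := sig) (s := F) (f := f) hfin
      (fun y hy => by rw [Real.norm_eq_abs]; exact h y hy)
    rw [Real.norm_eq_abs] at h1
    exact h1.trans (mul_le_mul_of_nonneg_left hvF hB)
  refine ⟨?_, ?_, ?_⟩
  · -- first claim
    have e1 : ∫ y in F, q (mob b y) * ⟪(w : E5), (y : E5)⟫_ℝ ∂sig =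
        (∫ y in F, q (mob b y) * (1 + ⟪(w : E5), (y : E5)⟫_ℝ) ∂sig) -
          ∫ y in F, q (mob b y) ∂sig := by
      rw [← integral_sub]
      · apply integral_congr_ae
        apply Eventually.of_forall
        intro y
        ring
      · exact (integrable_cont (cq.mul (continuous_const.add cw))).integrableOn
      · exact (integrable_cont cq).integrableOn
    have h1 : |∫ y in F, q (mob b y) * (1 + ⟪(w : E5), (y : E5)⟫_ℝ) ∂sig| ≤
        M * (C₁ * τ) * (C₁ * τ ^ 2) := by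
      apply hbound _ _ (by positivity)
      intro y hy
      have h2 : 0 ≤ 1 + ⟪(w : E5), (y : E5)⟫_ℝ := by linarith [(abs_le.1 (hsle y)).1]
      rw [abs_mul, abs_of_nonneg h2]
      exact mul_le_mul (hqF y hy) (hsF y hy) h2 hM
    have e2 := far_change hb p ρ q
    rw [hnb] at e2
    have h3 : |(∫ z in {z : S4 | ρ ≤ ‖(z : E5) - (p : E5)‖}, q z / (1 - ⟪b, (z : E5)⟫_ℝ) ^ 4 ∂sig) -
        GG p ρ q| ≤ M * (32 / m ^ 8 * (‖(w : E5) - (p : E5)‖ + τ)) * msig := by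
      have hfar : ∀ z ∈ {z : S4 | ρ ≤ ‖(z : E5) - (p : E5)‖},
          m ≤ 1 - ⟪b, (z : E5)⟫_ℝ ∧ m ≤ 1 - ⟪(p : E5), (z : E5)⟫_ℝ ∧
          |(1 - ⟪b, (z : E5)⟫_ℝ) - (1 - ⟪(p : E5), (z : E5)⟫_ℝ)| ≤ ‖(w : E5) - (p : E5)‖ + τ := by
        intro z hz
        have hz' : ρ ≤ ‖(z : E5) - (p : E5)‖ := hz
        have g1 := norm_sub_sq_S4 z p
        have g2 := norm_sub_sq_S4 z w
        have g3 : ρ / 2 ≤ ‖(z : E5) - (w : E5)‖ := by
          have : ‖(z : E5) - (p : E5)‖ ≤ ‖(z : E5) - (w : E5)‖ + ‖(w : E5) - (p : E5)‖ :=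
            norm_sub_le_norm_sub_add_norm_sub _ _ _
          linarith
        have g4 : (ρ / 2) ^ 2 ≤ ‖(z : E5) - (w : E5)‖ ^ 2 := by gcongr
        have g5 : ρ ^ 2 ≤ ‖(z : E5) - (p : E5)‖ ^ 2 := by gcongr
        have g6 : ⟪b, (z : E5)⟫_ℝ = l * ⟪(w : E5), (z : E5)⟫_ℝ := by
          rw [hbdef, real_inner_smul_left]
        have g7 := abs_le.1 (hsle z)
        have hm1 : m ≤ 1 := by rw [hmdef]; nlinarith
        refine ⟨?_, ?_, ?_⟩
        · rw [g6]
          rcases le_total 0 ⟪(w : E5), (z : E5)⟫_ℝ with h | h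
          · nlinarith
          · nlinarith
        · rw [hmdef]; nlinarith
        · rw [g6]
          have g8 : |⟪(w : E5) - (p : E5), (z : E5)⟫_ℝ| ≤ ‖(w : E5) - (p : E5)‖ := abs_inner_le _ z
          rw [inner_sub_left] at g8
          have g9 : |(1 - l) * ⟪(w : E5), (z : E5)⟫_ℝ| ≤ (1 - l) * 1 := by
            rw [abs_mul, abs_of_nonneg (by linarith : 0 ≤ 1 - l)]
            exact mul_le_mul_of_nonneg_left (hsle z) (by linarith)
          have g10 : (1 - l * ⟪(w : E5), (z : E5)⟫_ℝ) - (1 - ⟪(p : E5), (z : E5)⟫_ℝ) =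
              (1 - l) * ⟪(w : E5), (z : E5)⟫_ℝ -
                (⟪(w : E5), (z : E5)⟫_ℝ - ⟪(p : E5), (z : E5)⟫_ℝ) := by ring
          rw [g10]
          have g11 : 1 - l ≤ τ := by rw [hτdef]; nlinarith
          have g12 := abs_sub ((1 - l) * ⟪(w : E5), (z : E5)⟫_ℝ)
            (⟪(w : E5), (z : E5)⟫_ℝ - ⟪(p : E5), (z : E5)⟫_ℝ)
          linarith
      unfold GG
      have cb : Continuous fun z : S4 => ⟪b, (z : E5)⟫_ℝ := by fun_prop
      have cp : Continuous fun z : S4 => ⟪(p : E5), (z : E5)⟫_ℝ := by fun_prop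
      have hmf := measurable_far p ρ
      have hio : ∀ a : S4 → ℝ, Continuous a →
          (∀ z ∈ {z : S4 | ρ ≤ ‖(z : E5) - (p : E5)‖}, m ≤ a z) →
          IntegrableOn (fun z => q z / (a z) ^ 4) {z : S4 | ρ ≤ ‖(z : E5) - (p : E5)‖} sig := by
        intro a ha hma
        have hcl : IsClosed {z : S4 | ρ ≤ ‖(z : E5) - (p : E5)‖} :=
          isClosed_le continuous_const (by fun_prop)
        apply ContinuousOn.integrableOn_compact hcl.isCompact
        apply ContinuousOn.div hq.continuousOn (ha.pow 4).continuousOn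
        intro z hz
        exact pow_ne_zero 4 (hm.trans_le (hma z hz)).ne'
      have hi1 := hio (fun z : S4 => 1 - ⟪b, (z : E5)⟫_ℝ) (continuous_const.sub cb)
        fun z hz => (hfar z hz).1
      have hi2 := hio (fun z : S4 => 1 - ⟪(p : E5), (z : E5)⟫_ℝ) (continuous_const.sub cp)
        fun z hz => (hfar z hz).2.1
      rw [← integral_sub hi1 hi2]
      have h4 := norm_setIntegral_le_of_norm_le_const (μ := sig)
        (s := {z : S4 | ρ ≤ ‖(z : E5) - (p : E5)‖})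
        (f := fun z => q z / (1 - ⟪b, (z : E5)⟫_ℝ) ^ 4 - q z / (1 - ⟪(p : E5), (z : E5)⟫_ℝ) ^ 4)
        (C := M * (32 / m ^ 8 * (‖(w : E5) - (p : E5)‖ + τ))) (measure_lt_top _ _) (by
          intro z hz
          obtain ⟨k1, k2, k3⟩ := hfar z hz
          have b1 : |⟪b, (z : E5)⟫_ℝ| ≤ 1 := (abs_inner_le b z).trans hb.le
          have b2 : |⟪(p : E5), (z : E5)⟫_ℝ| ≤ 1 := by
            have := abs_inner_le (p : E5) z
            rwa [S4_norm] at this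
          have k4 := pow_four_diff hm k1 k2 (by linarith [(abs_le.1 b1).1])
            (by linarith [(abs_le.1 b2).1])
          have e3 : q z / (1 - ⟪b, (z : E5)⟫_ℝ) ^ 4 - q z / (1 - ⟪(p : E5), (z : E5)⟫_ℝ) ^ 4 =
              q z * (1 / (1 - ⟪b, (z : E5)⟫_ℝ) ^ 4 - 1 / (1 - ⟪(p : E5), (z : E5)⟫_ℝ) ^ 4) := by ring
          show ‖q z / (1 - ⟪b, (z : E5)⟫_ℝ) ^ 4 - q z / (1 - ⟪(p : E5), (z : E5)⟫_ℝ) ^ 4‖ ≤ _
          rw [e3, Real.norm_eq_abs, abs_mul]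
          apply mul_le_mul (hqM z hz) _ (abs_nonneg _) hM
          refine k4.trans ?_
          exact mul_le_mul_of_nonneg_left k3 (by positivity))
      rw [Real.norm_eq_abs] at h4
      refine h4.trans ?_
      apply mul_le_mul_of_nonneg_left _ (by positivity)
      have h5 : sig.real {z : S4 | ρ ≤ ‖(z : E5) - (p : E5)‖} ≤ sig.real Set.univ :=
        measureReal_mono (Set.subset_univ _)
      have h6 : sig.real Set.univ = msig := by
        have := integral_const_sig 1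
        rw [integral_const] at this
        simpa using this
      rw [h6] at h5
      exact h5
    set I₁ := ∫ y in F, q (mob b y) * (1 + ⟪(w : E5), (y : E5)⟫_ℝ) ∂sig with hI₁
    set I₂ := ∫ z in {z : S4 | ρ ≤ ‖(z : E5) - (p : E5)‖}, q z / (1 - ⟪b, (z : E5)⟫_ℝ) ^ 4 ∂sig
      with hI₂
    rw [e1, e2]
    have e4 : I₁ - τ ^ 2 * I₂ + τ ^ 2 * GG p ρ q = I₁ - τ ^ 2 * (I₂ - GG p ρ q) := by ring
    rw [e4]
    have h7 := abs_sub I₁ (τ ^ 2 * (I₂ - GG p ρ q))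
    have h8 : |τ ^ 2 * (I₂ - GG p ρ q)| ≤
        τ ^ 2 * (M * (32 / m ^ 8 * (‖(w : E5) - (p : E5)‖ + τ)) * msig) := by
      rw [abs_mul, abs_of_nonneg (by positivity : (0 : ℝ) ≤ τ ^ 2)]
      exact mul_le_mul_of_nonneg_left h3 (by positivity)
    have hd := norm_nonneg ((w : E5) - (p : E5))
    have hsq : 0 ≤ √(2 * C₁) := Real.sqrt_nonneg _
    set D := ‖(w : E5) - (p : E5)‖ with hD
    set κ := 32 / m ^ 8 * msig with hκ
    have hκ0 : 0 ≤ κ := by positivity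
    have h9 : τ ^ 2 * (M * (32 / m ^ 8 * (D + τ)) * msig) = κ * M * τ ^ 2 * (D + τ) := by
      rw [hκ]; ring
    rw [h9] at h8
    have h10 : M * (C₁ * τ) * (C₁ * τ ^ 2) ≤ C₁ * C₁ * M * τ ^ 2 * (D + τ) := by
      have : M * (C₁ * τ) * (C₁ * τ ^ 2) = C₁ * C₁ * M * τ ^ 2 * τ := by ring
      rw [this]
      apply mul_le_mul_of_nonneg_left _ (by positivity)
      linarith
    have h11 : 0 ≤ (√(2 * C₁) * C₁ + C₁) * M * τ ^ 2 * (D + τ) := by positivity
    calc _ ≤ C₁ * C₁ * M * τ ^ 2 * (D + τ) + κ * M * τ ^ 2 * (D + τ) := by linarith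
      _ ≤ (C₁ * C₁ + κ + √(2 * C₁) * C₁ + C₁) * M * τ ^ 2 * (D + τ) := by linarith
  · -- second claim
    intro e hew hen
    have hστ : √τ ^ 2 = τ := Real.sq_sqrt hτ.le
    have h1 : |∫ y in F, q (mob b y) * ⟪e, (y : E5)⟫_ℝ ∂sig| ≤
        M * (√(2 * C₁) * √τ) * (C₁ * τ ^ 2) := by
      apply hbound _ _ (by positivity)
      intro y hy
      rw [abs_mul]
      apply mul_le_mul (hqF y hy) _ (abs_nonneg _) hM
      have g1 : ⟪e, (y : E5)⟫_ℝ = ⟪e, (y : E5) - ⟪(w : E5), (y : E5)⟫_ℝ • (w : E5)⟫_ℝ := by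
        rw [inner_sub_right, inner_smul_right, real_inner_comm (w : E5) e, hew]
        ring
      have g2 : ‖(y : E5) - ⟪(w : E5), (y : E5)⟫_ℝ • (w : E5)‖ ^ 2 =
          1 - ⟪(w : E5), (y : E5)⟫_ℝ ^ 2 := by
        rw [norm_sub_sq_real, norm_smul, S4_norm, S4_norm, inner_smul_right,
          real_inner_comm (w : E5) (y : E5), Real.norm_eq_abs, mul_one, sq_abs]
        ring
      have g3 : |⟪e, (y : E5)⟫_ℝ| ≤ ‖(y : E5) - ⟪(w : E5), (y : E5)⟫_ℝ • (w : E5)‖ := by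
        rw [g1]
        refine (abs_real_inner_le_norm _ _).trans ?_
        have := norm_nonneg ((y : E5) - ⟪(w : E5), (y : E5)⟫_ℝ • (w : E5))
        nlinarith
      have g4 := abs_le.1 (hsle y)
      have g5 := hsF y hy
      have g6 : ‖(y : E5) - ⟪(w : E5), (y : E5)⟫_ℝ • (w : E5)‖ ^ 2 ≤ 2 * C₁ * τ := by
        rw [g2]
        nlinarith
      rw [← Real.sqrt_mul (by positivity)]
      refine g3.trans ?_
      exact Real.le_sqrt_of_sq_le g6
    have e5 : (√τ) ^ 5 = √τ * τ ^ 2 := by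
      calc (√τ) ^ 5 = √τ * (√τ ^ 2) ^ 2 := by ring
        _ = √τ * τ ^ 2 := by rw [hστ]
    rw [e5]
    refine h1.trans ?_
    have h2 : M * (√(2 * C₁) * √τ) * (C₁ * τ ^ 2) = (√(2 * C₁) * C₁) * M * (√τ * τ ^ 2) := by ring
    rw [h2]
    gcongr
    have : 0 ≤ C₁ * C₁ + 32 / m ^ 8 * msig := by positivity
    linarith
  · -- third claim
    intro T e he
    have h1 : |∫ y in F, ⟪T (mob b y : E5), (mob b y : E5)⟫_ℝ * ⟪e, (y : E5)⟫_ℝ ∂sig| ≤
        ‖T‖ * (C₁ * τ ^ 2) := by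
      apply hbound _ _ (norm_nonneg _)
      intro y _
      have g1 : |⟪T (mob b y : E5), (mob b y : E5)⟫_ℝ| ≤ ‖T‖ := by
        have k1 := abs_real_inner_le_norm (T (mob b y : E5)) (mob b y : E5)
        have k2 := T.le_opNorm (mob b y : E5)
        rw [S4_norm, mul_one] at k1 k2
        exact k1.trans k2
      have g2 : |⟪e, (y : E5)⟫_ℝ| ≤ 1 := (abs_inner_le e y).trans he
      rw [abs_mul]
      calc _ ≤ ‖T‖ * 1 := mul_le_mul g1 g2 (abs_nonneg _) (norm_nonneg _)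
        _ = ‖T‖ := mul_one _
    refine h1.trans ?_
    have h2 : ‖T‖ * (C₁ * τ ^ 2) = C₁ * ‖T‖ * τ ^ 2 := by ring
    rw [h2]
    gcongr
    have : 0 ≤ C₁ * C₁ + 32 / m ^ 8 * msig + √(2 * C₁) * C₁ := by positivity
    linarith

end Pool.Agent.PQP.H74
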